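import Pool.Agent.H845Z.St.Bridge

/-!
Amalgams of stable groups over finite almost normal subgroups are stable, both in the
Hilbert-Schmidt class and in permutations.
-/

set_option autoImplicit false

open Pool.Agent.H845Z.StDefs

theorem Pool.Agent.Results.MP_098da0_al.AAlmostNormalStable.result :
    ∀ (H G₁ G₂ : Type) [Group H] [Group G₁] [Group G₂] [Finite H] [Countable G₁] [Countable G₂]
      (i₁ : H →* G₁) (i₂ : H →* G₂), AlmostNormal i₁.range → AlmostNormal i₂.range →
      (HSStable G₁ → HSStable G₂ → HSStable (Amalgam i₁ i₂)) ∧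
        (PStable G₁ → PStable G₂ → PStable (Amalgam i₁ i₂)) :=
  fun _ _ _ _ _ _ _ _ _ i₁ i₂ n₁ n₂ => Pool.Agent.H845Z.St.amalgam_stable i₁ i₂ n₁ n₂
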